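import Mathlib
import Pool.Agent.W252.CoverCount

/-!
# How much of `ℤ/pℤ` is covered by `C √p` translates of a random `√p`-set

For a random `⌊√p⌋`-element subset `A` of `ℤ/pℤ`, the largest number of residues covered by at most
`C ⌊√p⌋` translates of `A` is `(1 - e^{-C} + o(1)) p`, with probability tending to `1`.  So the
translates can be chosen in no better way than at random.  In particular (`C = 1.01`) the
probability that at most `⌊1.01 ⌊√p⌋⌋` translates of `A` cover `ℤ/pℤ` tends to `0`.
-/

set_option autoImplicit false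

open scoped Pointwise

namespace Pool.Agent.Results.MP_cb22e8_co.SharpCovering

open Classical in
/-- The largest number of elements of `ℤ/pℤ` in a union `A + T` of at most `C ⌊√p⌋` translates
of `A`. -/
noncomputable def maxCover (p : ℕ) [NeZero p] (C : ℝ) (A : Finset (ZMod p)) : ℕ :=
  (Finset.univ.filter (fun T : Finset (ZMod p) => (T.card : ℝ) ≤ C * (Nat.sqrt p : ℝ))).sup
    (fun T => (A + T).card)

/-- For every `C ≥ 0` the proportion of the `⌊√p⌋`-element subsets `A` of `ℤ/pℤ` for which
`maxCover p C A / p` differs from `1 - e^{-C}` by at least `η` tends to `0` as `p → ∞`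
(through all positive integers, in particular through the primes). -/
theorem result (C η ε : ℝ) (hC : 0 ≤ C) (hη : 0 < η) (hε : 0 < ε) :
    ∃ N₀ : ℕ, ∀ (p : ℕ) [NeZero p], N₀ ≤ p →
      (((Finset.powersetCard (Nat.sqrt p) (Finset.univ : Finset (ZMod p))).filter
          (fun A => η ≤ |(maxCover p C A : ℝ) / p - (1 - Real.exp (-C))|)).card : ℝ) /
        ((Finset.powersetCard (Nat.sqrt p) (Finset.univ : Finset (ZMod p))).card : ℝ) < ε := by
  classical
  obtain ⟨N', hN'⟩ := Filter.eventually_atTop.mp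
    ((Pool.Agent.W252.Cover.goodCov_card_le C η (ε / 2) hC hη (by linarith)).and
      (Pool.Agent.W252.Cover.eventually_cover C (η / 2) hC (by linarith)))
  refine ⟨N', fun p _ hp => ?_⟩
  obtain ⟨h1, h2⟩ := hN' p hp
  have h1 := h1 (ZMod p) (ZMod.card p)
  have h2 := h2 (ZMod p) (ZMod.card p)
  have hp1 : 1 ≤ p := Nat.one_le_iff_ne_zero.mpr (NeZero.ne p)
  have hp0 : (0:ℝ) < p := by exact_mod_cast hp1
  have hchoose : (0:ℝ) < (p.choose (Nat.sqrt p) : ℕ) := by
    exact_mod_cast Nat.choose_pos (Nat.sqrt_le_self p)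
  rw [Finset.card_powersetCard, Finset.card_univ, ZMod.card, div_lt_iff₀ hchoose]
  have h3 : (((Finset.powersetCard (Nat.sqrt p) (Finset.univ : Finset (ZMod p))).filter
      (fun A => η ≤ |(maxCover p C A : ℝ) / p - (1 - Real.exp (-C))|)).card : ℝ) ≤
      ((Pool.Agent.W252.Cover.goodCov (ZMod p) C η).card : ℝ) := by
    norm_cast
    apply Finset.card_le_card
    intro A hA
    unfold Pool.Agent.W252.Cover.goodCov
    simp only [Finset.mem_filter, Finset.mem_powersetCard, Finset.mem_univ, true_and,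
      ZMod.card] at hA ⊢
    obtain ⟨⟨-, hcard⟩, hA2⟩ := hA
    refine ⟨hcard, ?_⟩
    -- the lower bound holds
    obtain ⟨T₀, hT₀, hT₀c⟩ := h2 A hcard
    have hle : ∀ T : Finset (ZMod p), (T.card : ℝ) ≤ C * (Nat.sqrt p : ℝ) →
        (A + T).card ≤ maxCover p C A := by
      intro T hT
      unfold maxCover
      exact Finset.le_sup (f := fun T => (A + T).card)
        (Finset.mem_filter.mpr ⟨Finset.mem_univ _, hT⟩)
    have hlow : (1 - Real.exp (-C) - η / 2) ≤ (maxCover p C A : ℝ) / p := by
      rw [le_div_iff₀ hp0]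
      refine hT₀c.trans ?_
      exact_mod_cast hle T₀ hT₀
    have hup : (1 - Real.exp (-C)) + η ≤ (maxCover p C A : ℝ) / p := by
      rcases abs_cases ((maxCover p C A : ℝ) / p - (1 - Real.exp (-C))) with ⟨h, _⟩ | ⟨h, _⟩
      · rw [h] at hA2; linarith
      · rw [h] at hA2; linarith
    obtain ⟨T, hT, hTc⟩ : ∃ T ∈ (Finset.univ.filter
        (fun T : Finset (ZMod p) => (T.card : ℝ) ≤ C * (Nat.sqrt p : ℝ))),
        maxCover p C A = (A + T).card := by
      unfold maxCover
      apply Finset.exists_mem_eq_sup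
      exact ⟨T₀, Finset.mem_filter.mpr ⟨Finset.mem_univ _, hT₀⟩⟩
    refine ⟨T, (Finset.mem_filter.mp hT).2, ?_⟩
    rw [le_div_iff₀ hp0, hTc] at hup
    refine le_of_le_of_eq hup (congrArg (fun S : Finset (ZMod p) => (S.card : ℝ)) ?_)
    apply Finset.coe_injective
    simp only [Finset.coe_add]
  have h7 : ε / 2 * ((p.choose (Nat.sqrt p) : ℕ) : ℝ) < ε * ((p.choose (Nat.sqrt p) : ℕ) : ℝ) := by
    apply mul_lt_mul_of_pos_right _ hchoose
    linarith
  linarith

end Pool.Agent.Results.MP_cb22e8_co.SharpCovering
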